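import Pool.Agent.Helper18.RD.Stmts2
import Pool.Agent.Helper19.RD.PL

/-! Project RD, row PL2: most primes up to `P` divide `q` (with a logarithm in place of
`N ^ ε`; the proof is that of `Helper19.RD.PL`). -/

set_option autoImplicit false

namespace Pool.Agent.Helper18.RD

open Finset

theorem st_PL2 (hSV : ST_SV) : ST_PL2 := by
  obtain ⟨C1, hC1, hsv⟩ := hSV
  refine ⟨1 / 40, max 3 (80 * C1), by norm_num,
    lt_of_lt_of_le (by norm_num) (le_max_left _ _), ?_⟩
  intro N q a P hN hq hcop hNP hPN hS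
  set C : ℝ := max 3 (80 * C1) with hC
  have hC3 : (3 : ℝ) ≤ C := le_max_left _ _
  have hC4 : 80 * C1 ≤ C := le_max_right _ _
  have hNr : (1 : ℝ) ≤ N := by exact_mod_cast hN
  have hlogN : 0 ≤ Real.log N := Real.log_nonneg hNr
  have hL : (0 : ℝ) < 1 + Real.log N := by linarith
  have hNP' : (N : ℝ) ≤ (P : ℝ) ^ 2 := by exact_mod_cast hNP
  have hPN' : (P : ℝ) ≤ N := by exact_mod_cast hPN
  have hP0 : 1 ≤ P := by
    rcases Nat.eq_zero_or_pos P with h | h
    · subst h; simp at hNP; omega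
    · exact h
  have hP0' : (1 : ℝ) ≤ P := by exact_mod_cast hP0
  have hcard : ((SS N q a).card : ℝ) ≤ N := by
    have : (SS N q a).card ≤ N := by
      refine le_trans (card_filter_le _ _) ?_
      rw [card_range]
    exact_mod_cast this
  have hP3' : (3 : ℝ) ≤ P := by
    have h1 : 3 * (P : ℝ) ≤ C * (1 + Real.log N) * P := by
      apply mul_le_mul_of_nonneg_right _ (by linarith)
      nlinarith
    have h2 : 3 * (P : ℝ) ≤ (P : ℝ) ^ 2 := le_trans h1 (le_trans hS (le_trans hcard hNP'))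
    nlinarith
  have hP3 : 3 ≤ P := by exact_mod_cast hP3'
  set A : ℕ := ((Icc 1 P).filter (fun p => p.Prime ∧ p ≠ 2 ∧ ¬ p ∣ q)).card with hA
  have hsv1 : (A : ℝ) * (SS N q a).card ≤ C1 * ((N : ℝ) + (P : ℝ) ^ 2) :=
    hsv N q a P hN hP0 hcop
  have hA0 : (0 : ℝ) ≤ A := Nat.cast_nonneg _
  have h1 : (A : ℝ) * (C * (1 + Real.log N) * P) ≤ 2 * C1 * (P : ℝ) ^ 2 := by
    refine le_trans (mul_le_mul_of_nonneg_left hS hA0) (le_trans hsv1 ?_)
    nlinarith
  have hPpos : (0 : ℝ) < P := by linarith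
  have h2 : (A : ℝ) * (C * (1 + Real.log N)) ≤ 2 * C1 * P := by
    have : ((A : ℝ) * (C * (1 + Real.log N))) * P ≤ (2 * C1 * P) * P := by
      calc ((A : ℝ) * (C * (1 + Real.log N))) * P
          = (A : ℝ) * (C * (1 + Real.log N) * P) := by ring
        _ ≤ 2 * C1 * (P : ℝ) ^ 2 := h1
        _ = (2 * C1 * P) * P := by ring
    exact le_of_mul_le_mul_right this hPpos
  have h5 : (A : ℝ) * (1 + Real.log N) ≤ (P : ℝ) / 40 := by
    have h7 : (80 * C1) * ((A : ℝ) * (1 + Real.log N)) ≤ 2 * C1 * P := by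
      refine le_trans ?_ h2
      calc (80 * C1) * ((A : ℝ) * (1 + Real.log N))
          ≤ C * ((A : ℝ) * (1 + Real.log N)) := by
            apply mul_le_mul_of_nonneg_right hC4
            positivity
        _ = (A : ℝ) * (C * (1 + Real.log N)) := by ring
    have h8 : C1 * (40 * ((A : ℝ) * (1 + Real.log N))) ≤ C1 * P := by linarith
    have h9 := le_of_mul_le_mul_left h8 hC1
    linarith
  have hcov := pl_cover q P hq
  rw [← hA] at hcov
  have hcov' : (Nat.primeCounting P : ℝ) ≤ 1 + (PP q P).card + A := by exact_mod_cast hcov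
  have hpi2 : (2 : ℝ) ≤ Nat.primeCounting P := by
    have h9 : Nat.primeCounting 3 ≤ Nat.primeCounting P := Nat.monotone_primeCounting hP3
    have h10 : Nat.primeCounting 3 = 2 := by decide
    rw [h10] at h9
    exact_mod_cast h9
  have hpi := pl_pi P hP3
  have hlogP : 0 < Real.log P := Real.log_pos (by linarith)
  have hlogPN : Real.log P ≤ 1 + Real.log N := by
    have := Real.log_le_log hPpos hPN'
    linarith
  have h11 : (P : ℝ) / (10 * (1 + Real.log N)) ≤ Nat.primeCounting P := by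
    refine le_trans ?_ hpi
    apply div_le_div_of_nonneg_left hPpos.le (by positivity)
    linarith
  have h12 : (A : ℝ) ≤ (P : ℝ) / 40 / (1 + Real.log N) := by
    rw [le_div_iff₀ hL]; exact h5
  have h13 : (P : ℝ) / (10 * (1 + Real.log N)) = 4 * ((P : ℝ) / 40 / (1 + Real.log N)) := by
    field_simp; ring
  have h14 : 1 / 40 * (P : ℝ) / (1 + Real.log N) = (P : ℝ) / 40 / (1 + Real.log N) := by ring
  rw [h14]
  rw [h13] at h11
  linarith

end Pool.Agent.Helper18.RD
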