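import Pool.Agent.Helper18.RD.Stmts3
import Pool.Agent.Helper61.RD.SV

/-! Project RD, row GS: the large sieve with composite moduli. -/

set_option autoImplicit false

namespace Pool.Agent.Helper84.RD

open Finset Pool.Agent.Helper18.RD
open Pool.Agent.Helper37.DG
open scoped ComplexConjugate

/-- Parseval with weights -/
theorem gs_parseval (D : ℕ) (D0 : D ≠ 0) (P : Finset ℤ) (w : ℤ → ℂ) :
    ((∑ b ∈ Finset.range D, ‖∑ x ∈ P, w x * fou_e D (b * x)‖ ^ 2 : ℝ) : ℂ) =
      (D : ℂ) * ∑ a ∈ (P ×ˢ P).filter (fun a => (D : ℤ) ∣ a.1 - a.2),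
        w a.1 * conj (w a.2) := by
  push_cast
  have h2 : ∀ b ∈ Finset.range D, ((‖∑ v ∈ P, w v * fou_e D (b * v)‖ : ℝ) : ℂ) ^ 2 =
      ∑ a ∈ P ×ˢ P, w a.1 * conj (w a.2) * fou_e D (b * (a.1 - a.2)) := by
    intro b _
    rw [← Complex.mul_conj', map_sum, Finset.sum_mul_sum, Finset.sum_product]
    refine Finset.sum_congr rfl fun v _ => Finset.sum_congr rfl fun u _ => ?_
    rw [map_mul, fou_e_conj]
    rw [show (b : ℤ) * (v - u) = b * v + -(b * u) by ring, fou_e_add]
    ring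
  rw [Finset.sum_congr rfl h2, Finset.sum_comm, Finset.mul_sum, Finset.sum_filter]
  refine Finset.sum_congr rfl fun a _ => ?_
  rw [← Finset.mul_sum, fou_orth D D0 (a.1 - a.2)]
  split_ifs <;> ring

/-- the sum over pairs in the same class -/
theorem gs_fib (p : ℕ) (T : Finset ℤ) (I : Finset (ZMod p)) (hI : ∀ x ∈ T, (x : ZMod p) ∈ I)
    (w : ℤ → ℂ) :
    ∑ a ∈ (T ×ˢ T).filter (fun a => (p : ℤ) ∣ a.1 - a.2), w a.1 * conj (w a.2) =
      ((∑ h ∈ I, ‖∑ x ∈ T.filter (fun x : ℤ => (x : ZMod p) = h), w x‖ ^ 2 : ℝ) : ℂ) := by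
  classical
  rw [← Finset.sum_fiberwise_of_maps_to (g := fun a : ℤ × ℤ => (a.1 : ZMod p)) (t := I)]
  · push_cast
    apply Finset.sum_congr rfl
    intro h _
    rw [← Complex.mul_conj', map_sum, Finset.sum_mul_sum, ← Finset.sum_product']
    apply Finset.sum_congr _ (fun _ _ => rfl)
    ext ⟨x, y⟩
    simp only [Finset.mem_filter, Finset.mem_product]
    have hxy : (p : ℤ) ∣ x - y ↔ (x : ZMod p) = y := by
      rw [← ZMod.intCast_zmod_eq_zero_iff_dvd, Int.cast_sub, sub_eq_zero]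
    rw [hxy]
    constructor
    · rintro ⟨⟨⟨h3, h4⟩, h5⟩, h6⟩
      exact ⟨⟨h3, h6⟩, h4, h5 ▸ h6⟩
    · rintro ⟨⟨h3, h6⟩, h4, h5⟩
      exact ⟨⟨⟨h3, h4⟩, h6.trans h5.symm⟩, h6⟩
  · intro a ha
    rw [Finset.mem_filter, Finset.mem_product] at ha
    exact hI _ ha.1.1

/-- the step at a prime, with weights -/
theorem gs_prime (p : ℕ) (hp : p.Prime) (T : Finset ℤ) (I : Finset (ZMod p))
    (hI : ∀ x ∈ T, (x : ZMod p) ∈ I) (hc : 2 * I.card ≤ p + 1) (w : ℤ → ℂ) :
    ((p : ℝ) - 1) / (p + 1) * ‖∑ x ∈ T, w x‖ ^ 2 ≤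
      ∑ c ∈ (range p).erase 0, ‖∑ x ∈ T, w x * fou_e p (c * x)‖ ^ 2 := by
  classical
  set W : ZMod p → ℂ := fun h => ∑ x ∈ T.filter (fun x : ℤ => (x : ZMod p) = h), w x with hW
  have h1 : ∑ b ∈ range p, ‖∑ x ∈ T, w x * fou_e p (b * x)‖ ^ 2 = p * ∑ h ∈ I, ‖W h‖ ^ 2 := by
    have := gs_parseval p hp.ne_zero T w
    rw [gs_fib p T I hI w] at this
    exact_mod_cast this
  have h2 : ∑ x ∈ T, w x = ∑ h ∈ I, W h := (Finset.sum_fiberwise_of_maps_to hI w).symm
  have h3 : ‖∑ x ∈ T, w x‖ ^ 2 ≤ I.card * ∑ h ∈ I, ‖W h‖ ^ 2 := by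
    rw [h2]
    calc ‖∑ h ∈ I, W h‖ ^ 2 ≤ (∑ h ∈ I, ‖W h‖) ^ 2 :=
          pow_le_pow_left₀ (norm_nonneg _) (norm_sum_le _ _) 2
      _ ≤ _ := sq_sum_le_card_mul_sum_sq
  have h5 := Finset.add_sum_erase (Finset.range p)
    (fun b : ℕ => ‖∑ x ∈ T, w x * fou_e p (b * x)‖ ^ 2) (Finset.mem_range.mpr hp.pos)
  have h6 : ‖∑ x ∈ T, w x * fou_e p (((0 : ℕ) : ℤ) * x)‖ ^ 2 = ‖∑ x ∈ T, w x‖ ^ 2 := by
    simp [fou_e_zero]
  rw [h1] at h5
  simp only [h6] at h5
  set A : ℝ := ‖∑ x ∈ T, w x‖ ^ 2 with hA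
  set Z : ℝ := ∑ h ∈ I, ‖W h‖ ^ 2 with hZ
  have hZ0 : 0 ≤ Z := Finset.sum_nonneg (fun _ _ => by positivity)
  have hp1 : (0 : ℝ) < (p : ℝ) + 1 := by positivity
  have hc' : (2 : ℝ) * I.card ≤ p + 1 := by exact_mod_cast hc
  have h7 : 2 * A ≤ (p + 1) * Z := by
    have : 2 * ((I.card : ℝ) * Z) ≤ (p + 1) * Z := by
      rw [← mul_assoc]
      exact mul_le_mul_of_nonneg_right hc' hZ0
    linarith
  have h8 : ((p : ℝ) - 1) / (p + 1) * A + A ≤ p * Z := by
    have h9 : ((p : ℝ) - 1) / (p + 1) * A + A = p * (2 * A) / (p + 1) := by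
      field_simp
      ring
    rw [h9, div_le_iff₀ hp1]
    have hp0 : (0 : ℝ) ≤ p := Nat.cast_nonneg _
    have := mul_le_mul_of_nonneg_left h7 hp0
    linarith
  linarith

/-- the sum of two fractions -/
theorem gs_e (p s : ℕ) (hp : p ≠ 0) (hs : s ≠ 0) (b c : ℤ) :
    fou_e (p * s) (b * p + c * s) = fou_e s b * fou_e p c := by
  unfold fou_e
  rw [← Complex.exp_add]
  congr 1
  have h1 : (p : ℂ) ≠ 0 := Nat.cast_ne_zero.mpr hp
  have h2 : (s : ℂ) ≠ 0 := Nat.cast_ne_zero.mpr hs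
  push_cast
  field_simp

/-- reduced fractions with denominator `p s` from those with denominators `s` and `p` -/
theorem gs_crt (p s : ℕ) (hp : p.Prime) (hs : s ≠ 0) (hcop : Nat.Coprime p s)
    (T : Finset ℤ) :
    ∑ b ∈ (range s).filter (fun b => b.Coprime s), ∑ c ∈ (range p).erase 0,
      ‖∑ x ∈ T, fou_e s (b * x) * fou_e p (c * x)‖ ^ 2 ≤
    ∑ a ∈ (range (p * s)).filter (fun a => a.Coprime (p * s)),
      ‖∑ x ∈ T, fou_e (p * s) (a * x)‖ ^ 2 := by
  classical
  have hps : p * s ≠ 0 := Nat.mul_ne_zero hp.ne_zero hs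
  set F : ℕ → ℝ := fun a => ‖∑ x ∈ T, fou_e (p * s) (a * x)‖ ^ 2 with hF
  set φ : ℕ × ℕ → ℕ := fun t => (t.1 * p + t.2 * s) % (p * s) with hφ
  have h1 : ∀ b c : ℕ, ‖∑ x ∈ T, fou_e s (b * x) * fou_e p (c * x)‖ ^ 2 = F (φ (b, c)) := by
    intro b c
    simp only [hF, hφ]
    congr 2
    apply Finset.sum_congr rfl
    intro x _
    rw [← gs_e p s hp.ne_zero hs]
    apply fou_e_congr (p * s) hps
    have h2 : (((b * p + c * s) % (p * s) : ℕ) : ℤ) =
        (b * p + c * s : ℤ) - (p * s : ℤ) * (((b * p + c * s) / (p * s) : ℕ) : ℤ) := by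
      have h3 := Nat.mod_add_div (b * p + c * s) (p * s)
      have h4 : (((b * p + c * s) % (p * s) : ℕ) : ℤ) +
          ((p * s : ℕ) : ℤ) * (((b * p + c * s) / (p * s) : ℕ) : ℤ) =
          ((b * p + c * s : ℕ) : ℤ) := by exact_mod_cast h3
      push_cast at h4 ⊢
      linarith
    rw [h2]
    refine ⟨(((b * p + c * s) / (p * s) : ℕ) : ℤ) * x, ?_⟩
    push_cast
    ring
  have h2 : ∑ b ∈ (range s).filter (fun b => b.Coprime s), ∑ c ∈ (range p).erase 0,
      ‖∑ x ∈ T, fou_e s (b * x) * fou_e p (c * x)‖ ^ 2 =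
      ∑ t ∈ ((range s).filter (fun b => b.Coprime s)) ×ˢ ((range p).erase 0), F (φ t) := by
    rw [Finset.sum_product]
    exact Finset.sum_congr rfl fun b _ => Finset.sum_congr rfl fun c _ => h1 b c
  rw [h2, ← Finset.sum_image (f := F) (g := φ)]
  · apply Finset.sum_le_sum_of_subset_of_nonneg
    · intro a ha
      rw [Finset.mem_image] at ha
      obtain ⟨⟨b, c⟩, hbc, rfl⟩ := ha
      rw [Finset.mem_product, Finset.mem_filter, Finset.mem_erase, Finset.mem_range,
        Finset.mem_range] at hbc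
      obtain ⟨⟨hb, hbs⟩, hc0, hc⟩ := hbc
      simp only at hb hbs hc0 hc
      rw [Finset.mem_filter, Finset.mem_range]
      refine ⟨Nat.mod_lt _ (Nat.pos_of_ne_zero hps), ?_⟩
      have hcp : Nat.Coprime c p := by
        rw [Nat.coprime_comm]
        exact (Nat.Prime.coprime_iff_not_dvd hp).mpr (fun hd => by
          have := Nat.le_of_dvd (Nat.pos_of_ne_zero hc0) hd
          omega)
      have h3 : Nat.Coprime (b * p + c * s) p := by
        rw [Nat.coprime_mul_right_add_left]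
        exact Nat.Coprime.mul_left hcp hcop.symm
      have h4 : Nat.Coprime (b * p + c * s) s := by
        rw [Nat.coprime_add_mul_right_left]
        exact Nat.Coprime.mul_left hbs hcop
      have h5 : Nat.Coprime (b * p + c * s) (p * s) := Nat.Coprime.mul_right h3 h4
      have h6 : (b * p + c * s) % (p * s) ≡ b * p + c * s [MOD p * s] := Nat.mod_modEq _ _
      show Nat.gcd ((b * p + c * s) % (p * s)) (p * s) = 1
      rw [h6.gcd_eq]
      exact h5
    · intro i _ _
      simp only [hF]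
      positivity
  · rintro ⟨b, c⟩ hbc ⟨b', c'⟩ hbc' heq
    rw [Finset.mem_coe, Finset.mem_product, Finset.mem_filter, Finset.mem_erase, Finset.mem_range,
      Finset.mem_range] at hbc hbc'
    obtain ⟨⟨hb, hbs⟩, hc0, hc⟩ := hbc
    obtain ⟨⟨hb', hbs'⟩, hc0', hc'⟩ := hbc'
    simp only at hb hbs hc0 hc hb' hbs' hc0' hc'
    have h3 : b * p + c * s ≡ b' * p + c' * s [MOD p * s] := heq
    have h4 : b * p + c * s ≡ b' * p + c' * s [MOD s] := h3.of_mul_left p
    have h5 : b * p + c * s ≡ b' * p + c' * s [MOD p] := h3.of_mul_right s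
    have h6 : b * p ≡ b' * p [MOD s] := by
      have e1 : b * p + c * s ≡ b * p [MOD s] := by
        show (b * p + c * s) % s = (b * p) % s
        rw [Nat.add_mul_mod_self_right]
      have e2 : b' * p + c' * s ≡ b' * p [MOD s] := by
        show (b' * p + c' * s) % s = (b' * p) % s
        rw [Nat.add_mul_mod_self_right]
      exact e1.symm.trans (h4.trans e2)
    have h7 : c * s ≡ c' * s [MOD p] := by
      have e1 : b * p + c * s ≡ c * s [MOD p] := by
        show (b * p + c * s) % p = (c * s) % p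
        rw [add_comm, Nat.add_mul_mod_self_right]
      have e2 : b' * p + c' * s ≡ c' * s [MOD p] := by
        show (b' * p + c' * s) % p = (c' * s) % p
        rw [add_comm, Nat.add_mul_mod_self_right]
      exact e1.symm.trans (h5.trans e2)
    have h8 : b ≡ b' [MOD s] := Nat.ModEq.cancel_right_of_coprime hcop.symm h6
    have h9 : c ≡ c' [MOD p] := Nat.ModEq.cancel_right_of_coprime hcop h7
    have h10 : b = b' := Nat.ModEq.eq_of_lt_of_lt h8 hb hb'
    have h11 : c = c' := Nat.ModEq.eq_of_lt_of_lt h9 hc hc'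
    rw [h10, h11]

theorem gg_mul (p r : ℕ) (hp : p.Prime) (h : Nat.Coprime p r) :
    gg (p * r) = ((p : ℝ) - 1) / (p + 1) * gg r := by
  unfold gg
  rw [Nat.Coprime.primeFactors_mul h, Finset.prod_union h.disjoint_primeFactors,
    hp.primeFactors, Finset.prod_singleton]

theorem gs_main (T : Finset ℤ) : ∀ r : ℕ, Squarefree r →
    (∀ p : ℕ, p.Prime → p ∣ r → ∃ I : Finset (ZMod p), 2 * I.card ≤ p + 1 ∧
      ∀ x ∈ T, (x : ZMod p) ∈ I) →
    gg r * (T.card : ℝ) ^ 2 ≤ ∑ a ∈ (range r).filter (fun a => a.Coprime r),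
      ‖∑ x ∈ T, fou_e r (a * x)‖ ^ 2 := by
  intro r
  induction r using Nat.strong_induction_on with
  | _ r ih =>
    intro hsq hI
    by_cases hr1 : r = 1
    · subst hr1
      have h1 : (range 1).filter (fun a => a.Coprime 1) = {0} := by
        ext a
        simp
      rw [h1, Finset.sum_singleton]
      simp [gg, fou_e_zero]
    · obtain ⟨p, hp, s, rfl⟩ := Nat.exists_prime_and_dvd hr1
      have hcop : Nat.Coprime p s := Nat.coprime_of_squarefree_mul hsq
      have hssq : Squarefree s := hsq.squarefree_of_dvd (dvd_mul_left s p)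
      have hs0 : s ≠ 0 := hssq.ne_zero
      have hlt : s < p * s := by
        have := hp.two_le
        nlinarith [Nat.pos_of_ne_zero hs0]
      have h1 := ih s hlt hssq (fun l hl hls => hI l hl (hls.trans (dvd_mul_left s p)))
      obtain ⟨I, hI1, hI2⟩ := hI p hp (dvd_mul_right p s)
      rw [gg_mul p s hp hcop]
      have hp1 : (1 : ℝ) ≤ p := by exact_mod_cast hp.one_lt.le
      have hpc : (0 : ℝ) ≤ ((p : ℝ) - 1) / (p + 1) := div_nonneg (by linarith) (by linarith)
      refine le_trans ?_ (gs_crt p s hp hs0 hcop T)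
      calc ((p : ℝ) - 1) / (p + 1) * gg s * (T.card : ℝ) ^ 2
          = ((p : ℝ) - 1) / (p + 1) * (gg s * (T.card : ℝ) ^ 2) := by ring
        _ ≤ ((p : ℝ) - 1) / (p + 1) * ∑ b ∈ (range s).filter (fun b => b.Coprime s),
            ‖∑ x ∈ T, fou_e s (b * x)‖ ^ 2 := mul_le_mul_of_nonneg_left h1 hpc
        _ = ∑ b ∈ (range s).filter (fun b => b.Coprime s), ((p : ℝ) - 1) / (p + 1) *
            ‖∑ x ∈ T, fou_e s (b * x)‖ ^ 2 := Finset.mul_sum _ _ _
        _ ≤ _ := Finset.sum_le_sum (fun b _ =>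
            gs_prime p hp T I hI2 hI1 (fun x => fou_e s (b * x)))

theorem st_GS (hlsi : Pool.Agent.Helper37.DG.ST_LSI) : ST_GS := by
  classical
  obtain ⟨C, hC, H⟩ := hlsi
  refine ⟨C, hC, ?_⟩
  intro N q a Q hN hQ _
  set T : Finset ℤ := (SS N q a).map Nat.castEmbedding with hT
  have hTc : T.card = (SS N q a).card := Finset.card_map _
  have hTs : T ⊆ Finset.Ico (0 : ℤ) (N : ℤ) := by
    intro x hx
    rw [hT, Finset.mem_map] at hx
    obtain ⟨n, hn, rfl⟩ := hx
    unfold SS at hn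
    rw [Finset.mem_filter, Finset.mem_range] at hn
    rw [Finset.mem_Ico]
    simp only [Nat.castEmbedding_apply]
    omega
  have h1 := H N Q T hN hQ hTs
  have h2 : (∑ r ∈ RR q Q, gg r) * (T.card : ℝ) ^ 2 ≤
      ∑ q ∈ Finset.Icc 1 Q, ∑ a ∈ (Finset.range q).filter (fun a => a.Coprime q),
    ‖∑ x ∈ T, Complex.exp (2 * Real.pi * Complex.I * ((a : ℂ) * (x : ℂ) / (q : ℂ)))‖ ^ 2 := by
    rw [Finset.sum_mul]
    calc ∑ r ∈ RR q Q, gg r * (T.card : ℝ) ^ 2 ≤
          ∑ q ∈ RR q Q, ∑ a ∈ (Finset.range q).filter (fun a => a.Coprime q),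
          ‖∑ x ∈ T, Complex.exp (2 * Real.pi * Complex.I * ((a : ℂ) * (x : ℂ) / (q : ℂ)))‖ ^ 2 := by
          apply Finset.sum_le_sum
          intro r hr
          rw [RR, Finset.mem_filter] at hr
          obtain ⟨-, hsq, hrc⟩ := hr
          have h3 := gs_main T r hsq (fun p hp hpr => by
            have hp2q : Nat.Coprime p (2 * q) := Nat.Coprime.coprime_dvd_left hpr hrc
            have hp2 : p ≠ 2 := by
              rintro rfl
              have := Nat.Coprime.coprime_dvd_right (dvd_mul_right 2 q) hp2q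
              norm_num at this
            have hpq : ¬ p ∣ q := by
              have := Nat.Coprime.coprime_dvd_right (dvd_mul_left q 2) hp2q
              exact (Nat.Prime.coprime_iff_not_dvd hp).mp this
            obtain ⟨I, hI, hI'⟩ := Pool.Agent.Helper61.RD.sv_classes p N q a hp hp2 hpq
            refine ⟨I, hI, fun x hx => ?_⟩
            rw [hT, Finset.mem_map] at hx
            obtain ⟨n, hn, rfl⟩ := hx
            exact hI' n hn)
          refine h3.trans (le_of_eq ?_)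
          apply Finset.sum_congr rfl
          intro b _
          congr 2
          apply Finset.sum_congr rfl
          intro x _
          unfold fou_e
          congr 2
          push_cast
          ring
      _ ≤ _ := by
          apply Finset.sum_le_sum_of_subset_of_nonneg (Finset.filter_subset _ _)
          intro i _ _
          positivity
  have h3 := h2.trans h1
  rw [← hTc]
  rcases Nat.eq_zero_or_pos T.card with h0 | h0
  · rw [h0]
    simp only [Nat.cast_zero, mul_zero]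
    positivity
  · have h0' : (0 : ℝ) < T.card := by exact_mod_cast h0
    have h4 : (∑ r ∈ RR q Q, gg r) * (T.card : ℝ) * T.card ≤
        C * ((N : ℝ) + (Q : ℝ) ^ 2) * T.card := by
      calc (∑ r ∈ RR q Q, gg r) * (T.card : ℝ) * T.card
          = (∑ r ∈ RR q Q, gg r) * (T.card : ℝ) ^ 2 := by ring
        _ ≤ C * ((N : ℝ) + (Q : ℝ) ^ 2) * T.card := h3
    exact le_of_mul_le_mul_right h4 h0'

end Pool.Agent.Helper84.RD
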