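import Pool.Agent.Helper18.RD.Stmts4
import Pool.Agent.Helper15.HallDiv

/-! Project RD, row SQR: a squarefree number has few square roots modulo `m`. -/

set_option autoImplicit false

namespace Pool.Agent.Helper84.RD

open Finset Pool.Agent.Helper18.RD

theorem sqr_h (h d : ℕ) (hd : Squarefree d) (hh : h * h ∣ 4 * d) : h ∣ 2 := by
  rcases Nat.even_or_odd' h with ⟨c, hc | hc⟩
  · have h1 : 4 * (c * c) ∣ 4 * d := by
      have e : h * h = 4 * (c * c) := by rw [hc]; ring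
      rw [← e]
      exact hh
    have h2 : c * c ∣ d := Nat.dvd_of_mul_dvd_mul_left (by norm_num) h1
    have h3 := Nat.isUnit_iff.mp (hd c h2)
    rw [hc, h3]
  · have hodd : Odd h := ⟨c, hc⟩
    have hco2 : Nat.Coprime h 2 := Nat.coprime_two_right.mpr hodd
    have hco : Nat.Coprime (h * h) 4 := by
      have e : (4 : ℕ) = 2 * 2 := by norm_num
      rw [e]
      exact Nat.Coprime.mul_left (Nat.Coprime.mul_right hco2 hco2)
        (Nat.Coprime.mul_right hco2 hco2)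
    have h2 : h * h ∣ d := hco.dvd_of_dvd_mul_left hh
    have h3 := Nat.isUnit_iff.mp (hd h h2)
    rw [h3]
    exact one_dvd 2

theorem sqr_half (m : ℕ) (hm : 1 ≤ m) (x y : ℤ) (h : (m : ℤ) ∣ x * y) :
    ∃ k : ℕ, m = Int.gcd m x * k ∧ (k : ℤ) ∣ y := by
  have hgm : Int.gcd m x ∣ m := by
    have := Int.gcd_dvd_left (m : ℤ) x
    exact_mod_cast this
  obtain ⟨k, hk⟩ := hgm
  refine ⟨k, hk, ?_⟩
  have hg0 : 0 < Int.gcd m x := by
    apply Nat.pos_of_ne_zero
    intro h0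
    rw [h0, zero_mul] at hk
    omega
  have h1 : (m : ℤ) ∣ ((Int.gcd (m * y) (x * y) : ℕ) : ℤ) :=
    Int.dvd_coe_gcd (dvd_mul_right _ _) h
  rw [Int.gcd_mul_right] at h1
  have h2 : m ∣ Int.gcd m x * y.natAbs := by exact_mod_cast h1
  have h3 : Int.gcd m x * k ∣ Int.gcd m x * y.natAbs := by
    rw [← hk]
    exact h2
  have h4 : k ∣ y.natAbs := Nat.dvd_of_mul_dvd_mul_left hg0 h3
  exact Int.natCast_dvd.mpr h4

theorem sqr_key (m d t0 t s : ℕ) (hm : 1 ≤ m) (hd : Squarefree d)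
    (h0 : (m : ℤ) ∣ (t0 : ℤ) ^ 2 - d) (ht : (m : ℤ) ∣ (t : ℤ) ^ 2 - d)
    (hs : (m : ℤ) ∣ (s : ℤ) ^ 2 - d)
    (hg : Int.gcd m ((t : ℤ) - t0) = Int.gcd m ((s : ℤ) - t0)) :
    (m : ℤ) ∣ 2 * ((t : ℤ) - s) := by
  have h1 : (m : ℤ) ∣ ((t : ℤ) - t0) * ((t : ℤ) + t0) := by
    have := dvd_sub ht h0
    have e : (t : ℤ) ^ 2 - d - ((t0 : ℤ) ^ 2 - d) = ((t : ℤ) - t0) * ((t : ℤ) + t0) := by ring
    rwa [e] at this
  have h2 : (m : ℤ) ∣ ((s : ℤ) - t0) * ((s : ℤ) + t0) := by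
    have := dvd_sub hs h0
    have e : (s : ℤ) ^ 2 - d - ((t0 : ℤ) ^ 2 - d) = ((s : ℤ) - t0) * ((s : ℤ) + t0) := by ring
    rwa [e] at this
  obtain ⟨k, hk, hkt⟩ := sqr_half m hm _ _ h1
  obtain ⟨k', hk', hks⟩ := sqr_half m hm _ _ h2
  set g : ℕ := Int.gcd m ((t : ℤ) - t0) with hgdef
  have hg0 : 0 < g := by
    apply Nat.pos_of_ne_zero
    intro h
    rw [h, zero_mul] at hk
    omega
  rw [← hg] at hk'
  have hkk : k' = k := by
    have : g * k' = g * k := by rw [← hk', ← hk]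
    exact Nat.eq_of_mul_eq_mul_left hg0 this
  rw [hkk] at hks
  have hgt : (g : ℤ) ∣ (t : ℤ) - t0 := by
    rw [hgdef]
    exact Int.gcd_dvd_right (m : ℤ) _
  have hgs : (g : ℤ) ∣ (s : ℤ) - t0 := by
    rw [hg]
    exact Int.gcd_dvd_right (m : ℤ) _
  have hgD : (g : ℤ) ∣ (t : ℤ) - s := by
    have := dvd_sub hgt hgs
    have e : (t : ℤ) - t0 - ((s : ℤ) - t0) = (t : ℤ) - s := by ring
    rwa [e] at this
  have hkD : (k : ℤ) ∣ (t : ℤ) - s := by
    have := dvd_sub hkt hks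
    have e : (t : ℤ) + t0 - ((s : ℤ) + t0) = (t : ℤ) - s := by ring
    rwa [e] at this
  -- the common part
  set h : ℕ := Nat.gcd g k with hh
  have hhg : (h : ℤ) ∣ (g : ℤ) := by exact_mod_cast Nat.gcd_dvd_left g k
  have hhk : (h : ℤ) ∣ (k : ℤ) := by exact_mod_cast Nat.gcd_dvd_right g k
  have h3 : (h : ℤ) ∣ 2 * (t0 : ℤ) := by
    have := dvd_sub (hhk.trans hkt) (hhg.trans hgt)
    have e : (t : ℤ) + t0 - ((t : ℤ) - t0) = 2 * (t0 : ℤ) := by ring
    rwa [e] at this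
  have h4 : ((h : ℤ) * h) ∣ (m : ℤ) := by
    rw [hk]
    push_cast
    exact mul_dvd_mul hhg hhk
  have h5 : ((h : ℤ) * h) ∣ 4 * (d : ℤ) := by
    have a1 : ((h : ℤ) * h) ∣ (2 * (t0 : ℤ)) * (2 * t0) := mul_dvd_mul h3 h3
    have a2 : ((h : ℤ) * h) ∣ 4 * ((t0 : ℤ) ^ 2 - d) := Dvd.dvd.mul_left (h4.trans h0) 4
    have := dvd_sub a1 a2
    have e : (2 * (t0 : ℤ)) * (2 * t0) - 4 * ((t0 : ℤ) ^ 2 - d) = 4 * (d : ℤ) := by ring
    rwa [e] at this
  have h6 : h ∣ 2 := sqr_h h d hd (by exact_mod_cast h5)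
  -- the least common multiple
  have h7 : ((Nat.lcm g k : ℕ) : ℤ) ∣ (t : ℤ) - s := by
    rw [Int.natCast_dvd]
    exact Nat.lcm_dvd (Int.natCast_dvd.mp hgD) (Int.natCast_dvd.mp hkD)
  have h8 : m = h * Nat.lcm g k := by rw [hh, Nat.gcd_mul_lcm, ← hk]
  rw [h8]
  push_cast
  exact mul_dvd_mul (by exact_mod_cast h6) h7

theorem st_SQR : ST_SQR := by
  classical
  intro ε hε
  obtain ⟨C, hC, H⟩ := Pool.Agent.Helper15.Hall.card_divisors_le_rpow ε hε
  refine ⟨2 * C, by linarith, fun m d hm hd => ?_⟩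
  have hmpos : (0 : ℝ) ≤ (m : ℝ) ^ ε := by positivity
  rcases ((range m).filter (fun t : ℕ => (m : ℤ) ∣ (t : ℤ) ^ 2 - d)).eq_empty_or_nonempty with
    h | ⟨t0, ht0⟩
  · rw [h, Finset.card_empty, Nat.cast_zero]
    have : (0 : ℝ) ≤ C := by linarith
    positivity
  have h0 : (m : ℤ) ∣ (t0 : ℤ) ^ 2 - d := (Finset.mem_filter.mp ht0).2
  have hcard : ((range m).filter (fun t : ℕ => (m : ℤ) ∣ (t : ℤ) ^ 2 - d)).card ≤
      (m.divisors ×ˢ (univ : Finset Bool)).card := by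
    apply Finset.card_le_card_of_injOn
      (fun t : ℕ => (Int.gcd (m : ℤ) ((t : ℤ) - t0), decide (2 * t < m)))
    · intro t ht
      rw [Finset.mem_coe, Finset.mem_product, Nat.mem_divisors]
      refine ⟨⟨?_, by omega⟩, Finset.mem_univ _⟩
      have := Int.gcd_dvd_left (m : ℤ) ((t : ℤ) - t0)
      exact_mod_cast this
    · intro t ht s hs hts
      rw [Finset.mem_coe, Finset.mem_filter, Finset.mem_range] at ht hs
      have e1 : Int.gcd (m : ℤ) ((t : ℤ) - t0) = Int.gcd (m : ℤ) ((s : ℤ) - t0) :=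
        congrArg Prod.fst hts
      have e2 : decide (2 * t < m) = decide (2 * s < m) := congrArg Prod.snd hts
      have e3 : (2 * t < m) ↔ (2 * s < m) := by
        simpa using e2
      obtain ⟨j, hj⟩ := sqr_key m d t0 t s hm hd h0 ht.2 hs.2 e1
      have hj0 : j = 0 := by
        by_contra hne
        rcases lt_or_gt_of_ne hne with hneg | hpos
        · have : (m : ℤ) * j ≤ -(m : ℤ) := by nlinarith
          have h1 : 2 * (s : ℤ) - 2 * t ≥ m := by linarith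
          by_cases hc : 2 * t < m
          · have := e3.mp hc
            omega
          · have : ¬ 2 * s < m := fun h => hc (e3.mpr h)
            omega
        · have : (m : ℤ) ≤ (m : ℤ) * j := by nlinarith
          have h1 : 2 * (t : ℤ) - 2 * s ≥ m := by linarith
          by_cases hc : 2 * t < m
          · have := e3.mp hc
            omega
          · have : ¬ 2 * s < m := fun h => hc (e3.mpr h)
            omega
      rw [hj0, mul_zero] at hj
      omega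
  rw [Finset.card_product, Finset.card_univ, Fintype.card_bool] at hcard
  have h1 := H m (by omega)
  have h2 : (((range m).filter (fun t : ℕ => (m : ℤ) ∣ (t : ℤ) ^ 2 - d)).card : ℝ) ≤
      (m.divisors.card : ℝ) * 2 := by exact_mod_cast hcard
  linarith

end Pool.Agent.Helper84.RD
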